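import Pool.Agent.NH78.Rec.Main

/-!
# Functions determined by content and singletons are reconstructible
-/

set_option autoImplicit false

open Function Finset Pool.Agent.R795.Min Pool.Agent.NH78.Rec

namespace Pool.Agent.Results.MP_75c0e8_co.Reconstruction

variable {A B : Type}

/-- Similar functions: they differ by a permutation of the arguments. -/
def Similar {n : ℕ} (f g : (Fin n → A) → B) : Prop :=
  ∃ τ : Equiv.Perm (Fin n), ∀ a : Fin n → A, f a = g (fun k => a (τ k))

/-- Similarity as an equivalence relation. -/
def simSetoid (A B : Type) (n : ℕ) : Setoid ((Fin n → A) → B) where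
  r := Similar
  iseqv :=
    { refl := fun f => ⟨1, fun a => rfl⟩
      symm := by
        rintro f g ⟨τ, h⟩
        refine ⟨τ.symm, fun a => ?_⟩
        rw [h]
        congr 1
        funext k
        simp
      trans := by
        rintro f g h ⟨τ, h1⟩ ⟨τ', h2⟩
        refine ⟨τ'.trans τ, fun a => ?_⟩
        rw [h1, h2]
        rfl }

/-- The identification minor `f_I` of a function of arity `n + 1` for `I = {i, j}` with `i < j`:
`f_I(a_1, …, a_n) = f(a_1, …, a_{j-1}, a_i, a_j, …, a_n)`. -/
def minor {n : ℕ} (f : (Fin (n + 1) → A) → B) (i : Fin n) (j : Fin (n + 1)) : (Fin n → A) → B :=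
  fun a => f (j.insertNth (a i) a)

/-- The two-element subsets `{i, j}`, `i < j`, of the set of the `n + 1` arguments. -/
def pairs (n : ℕ) : Finset (Fin n × Fin (n + 1)) := univ.filter fun p => p.1.castSucc < p.2

/-- The deck: the multiset of the similarity classes of the identification minors. -/
def deck {n : ℕ} (f : (Fin (n + 1) → A) → B) : Multiset (Quotient (simSetoid A B n)) :=
  (pairs n).val.map fun p => Quotient.mk (simSetoid A B n) (minor f p.1 p.2)

/-- `f` is reconstructible: every function with the same deck is similar to `f`. -/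
def Reconstructible {n : ℕ} (f : (Fin (n + 1) → A) → B) : Prop :=
  ∀ g : (Fin (n + 1) → A) → B, deck f = deck g → Similar f g

/-- From equal decks to the comparison of `g` with `f` for tuples with two equal entries. -/
theorem data_of_deck {n : ℕ} {f g : (Fin (n + 1) → A) → B} (hdeck : deck f = deck g)
    (i j : Fin (n + 1)) (hij : i ≠ j) : Nonempty (KD f g i j) := by
  have key : ∀ i j : Fin (n + 1), i < j → Nonempty (KD f g i j) := by
    intro i j hlt
    have hin : (i : ℕ) < n := by
      have h1 := j.2
      have h2 : (i : ℕ) < j := hlt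
      omega
    obtain ⟨i0, rfl⟩ : ∃ i0 : Fin n, i0.castSucc = i := ⟨⟨i, hin⟩, rfl⟩
    have hp : (i0, j) ∈ pairs n := by
      rw [pairs, mem_filter]
      exact ⟨mem_univ _, hlt⟩
    have hmem : Quotient.mk (simSetoid A B n) (minor g i0 j) ∈ deck g :=
      Multiset.mem_map.mpr ⟨_, hp, rfl⟩
    rw [← hdeck] at hmem
    obtain ⟨⟨i1, j1⟩, _, h1⟩ := Multiset.mem_map.mp hmem
    have hsim : Similar (minor g i0 j) (minor f i1 j1) :=
      (simSetoid A B n).symm (Quotient.exact h1)
    obtain ⟨τ, hτ⟩ := hsim
    have h2 := kd_of_sim i0 j i1 j1 τ hτ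
    rwa [Fin.succAbove_of_castSucc_lt j i0 hlt] at h2
  rcases lt_or_gt_of_ne hij with h | h
  · exact key i j h
  · obtain ⟨D⟩ := key j i h
    exact kd_symm D

/-- The infinite case. -/
theorem infinite_case [DecidableEq A] [Infinite A] [Nontrivial B] {n : ℕ} :
    ∃ f : (Fin (n + 1) → A) → B, DetCS f ∧ ¬ Reconstructible f := by
  classical
  obtain ⟨b0, b1, hb⟩ := exists_pair_ne B
  refine ⟨fun _ => b0, fun _ _ _ _ => rfl, fun hrec => ?_⟩
  obtain ⟨g, hg⟩ : ∃ g : (Fin (n + 1) → A) → B, g = fun a => if Injective a then b1 else b0 :=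
    ⟨_, rfl⟩
  have hdeck : deck (fun _ => b0 : (Fin (n + 1) → A) → B) = deck g := by
    unfold deck
    apply Multiset.map_congr rfl
    rintro ⟨i, j⟩ _
    have : minor (fun _ => b0 : (Fin (n + 1) → A) → B) i j = minor g i j := by
      funext a
      simp only [minor, hg]
      rw [if_neg]
      intro hi
      have : j = j.succAbove i := hi (by simp)
      exact Fin.succAbove_ne j i this.symm
    rw [this]
  obtain ⟨τ, hτ⟩ := hrec g hdeck
  obtain ⟨a, ha⟩ : ∃ a : Fin (n + 1) → A,
      a = fun (k : Fin (n + 1)) => Infinite.natEmbedding A (k : ℕ) := ⟨_, rfl⟩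
  have hai : Injective a := fun x y hxy => by
    rw [ha] at hxy
    exact Fin.ext ((Infinite.natEmbedding A).injective hxy)
  have h1 := hτ a
  simp only [hg] at h1
  rw [if_pos (show Injective fun k => a (τ k) from hai.comp τ.injective)] at h1
  exact hb h1

/-- If `A` is finite, every function of arity `n + 1` with `n ≥ 100 (|A| + 1)² + 100` determined by
content and singletons is reconstructible. If `A` is infinite and `B` has at least two elements,
then in every arity `n + 1 ≥ 2` there is a function determined by content and singletons which is not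
reconstructible. -/
theorem result (A B : Type) [DecidableEq A] :
    (Finite A → ∀ n : ℕ, 100 * (Nat.card A + 1) ^ 2 + 100 ≤ n →
      ∀ f : (Fin (n + 1) → A) → B, DetCS f → Reconstructible f) ∧
    (Infinite A → Nontrivial B → ∀ n : ℕ, 1 ≤ n → ∃ f : (Fin (n + 1) → A) → B,
      DetCS f ∧ ¬ Reconstructible f) := by
  constructor
  · intro hA n hn f hf g hdeck
    have := Fintype.ofFinite A
    rw [Nat.card_eq_fintype_card] at hn
    obtain ⟨σ, hσ⟩ := main (g := g) hf (by
      rw [← pow_two]
      omega) (data_of_deck hdeck)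
    refine ⟨σ.symm, fun a => ?_⟩
    rw [← hσ]
    congr 1
    funext k
    simp
  · intro _ _ n _
    exact infinite_case

end Pool.Agent.Results.MP_75c0e8_co.Reconstruction
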